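import Mathlib
import Pool.Agent.T9h5.GG.Spec

/-!
Pieces EffCount and Primes for helper5 (MP_c727bf_nt, GG).

Author: helper69.
-/

set_option autoImplicit false
set_option linter.unusedSectionVars false

namespace Pool.Agent.T9h69.GG

open Finset
open Pool.Agent.T9h5.GG (dEg Ar)

variable {A Z : Type} [CommRing A] [IsDomain A] (S : Ar A Z)

theorem dEg_zero (dg : Z → ℕ) : dEg dg 0 = 0 := by
  simp [dEg]

theorem dEg_add (dg : Z → ℕ) (E F : Z →₀ ℕ) : dEg dg (E + F) = dEg dg E + dEg dg F := by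
  classical
  unfold dEg
  exact Finsupp.sum_add_index' (fun z => by simp) (fun z a b => by ring)

theorem dEg_single (dg : Z → ℕ) (z : Z) (n : ℕ) : dEg dg (Finsupp.single z n) = n * dg z := by
  unfold dEg
  exact Finsupp.sum_single_index (by simp)

theorem dv_one : S.dv 1 = 0 := by
  have := S.dv_mul 1 1 one_ne_zero one_ne_zero
  rw [mul_one] at this
  exact left_eq_add.mp this

theorem dv_neg_one : S.dv (-1) = 0 := by
  have := S.dv_mul (-1) (-1) (neg_ne_zero.mpr one_ne_zero) (neg_ne_zero.mpr one_ne_zero)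
  rw [neg_one_mul, neg_neg, dv_one] at this
  ext z
  have h := DFunLike.congr_fun this z
  simp only [Finsupp.coe_zero, Pi.zero_apply, Finsupp.coe_add, Pi.add_apply] at h
  simp only [Finsupp.coe_zero, Pi.zero_apply]
  omega

theorem dv_neg (x : A) (hx : x ≠ 0) : S.dv (-x) = S.dv x := by
  rw [← neg_one_mul, S.dv_mul _ _ (neg_ne_zero.mpr one_ne_zero) hx, dv_neg_one, zero_add]

theorem dv_pow (x : A) (hx : x ≠ 0) (n : ℕ) : S.dv (x ^ n) = n • S.dv x := by
  induction n with
  | zero => rw [pow_zero, dv_one, zero_smul]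
  | succ n ih => rw [pow_succ, S.dv_mul _ _ (pow_ne_zero n hx) hx, ih, succ_nsmul]

theorem ht_eq_zero (x : A) (hx : x ≠ 0) (h : S.dv x = 0) : S.ht x = 0 := by
  have := S.dE_dv x hx
  rw [h, dEg_zero] at this
  have := S.δ_pos
  by_contra hne
  have : 0 < S.δ * S.ht x := Nat.mul_pos S.δ_pos (Nat.pos_of_ne_zero hne)
  omega

/-- the box is finite -/
theorem box_finite (E : Z →₀ ℕ) (m : ℕ) (h : dEg S.dg E + S.c₀ ≤ S.δ * m) :
    {x : A | x = 0 ∨ (E ≤ S.dv x ∧ S.ht x < m)}.Finite := by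
  apply Set.finite_of_ncard_pos
  have := S.box E m h
  rcases Nat.eq_zero_or_pos {x : A | x = 0 ∨ (E ≤ S.dv x ∧ S.ht x < m)}.ncard with h0 | h0
  · rw [h0, zero_mul] at this
    have h2 : 0 < S.q ^ (S.δ * m) := Nat.pow_pos (by have := S.two_le_q; omega)
    omega
  · exact h0

/-- the height used for divisors of degree `n` -/
def mm (n : ℕ) : ℕ := (n + S.c + S.c₀ + 1) / S.δ + 1

theorem lt_mm (n : ℕ) : n + S.c + S.c₀ + 1 < S.δ * mm S n := by
  unfold mm
  have := Nat.lt_div_mul_add (a := n + S.c + S.c₀ + 1) (b := S.δ) S.δ_pos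
  calc n + S.c + S.c₀ + 1 < (n + S.c + S.c₀ + 1) / S.δ * S.δ + S.δ := this
    _ = S.δ * ((n + S.c + S.c₀ + 1) / S.δ + 1) := by ring

theorem mm_le (n : ℕ) : S.δ * (mm S n - 1) ≤ n + S.c + S.c₀ + 1 := by
  unfold mm
  rw [Nat.add_sub_cancel]
  exact Nat.mul_div_le _ _

/-- every effective divisor divides a small element with a cofactor of bounded degree -/
theorem exists_elt (E : Z →₀ ℕ) : ∃ (x : A) (F : Z →₀ ℕ), x ≠ 0 ∧ S.dv x = E + F ∧
    S.ht x < mm S (dEg S.dg E) ∧ dEg S.dg F ≤ S.c + S.c₀ + 1 := by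
  set n := dEg S.dg E with hn
  have hlt := lt_mm S n
  have hbox := S.box E (mm S n) (by rw [← hn]; omega)
  have hfin := box_finite S E (mm S n) (by rw [← hn]; omega)
  have hq := S.two_le_q
  have h1 : 1 < {x : A | x = 0 ∨ (E ≤ S.dv x ∧ S.ht x < mm S n)}.ncard := by
    by_contra hle
    push Not at hle
    have h2 : S.q ^ (S.δ * mm S n) ≤ S.q ^ (n + S.c) := by
      rw [← hbox, ← hn]
      calc _ ≤ 1 * S.q ^ (n + S.c) := Nat.mul_le_mul_right _ hle
        _ = _ := one_mul _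
    have h3 := (Nat.pow_le_pow_iff_right (by omega : 1 < S.q)).mp h2
    omega
  obtain ⟨x, hx, hx0⟩ := Set.exists_ne_of_one_lt_ncard h1 (0 : A)
  rcases hx with hx | ⟨hx1, hx2⟩
  · exact absurd hx hx0
  refine ⟨x, S.dv x - E, hx0, (add_tsub_cancel_of_le hx1).symm, hx2, ?_⟩
  have h4 := S.dE_dv x hx0
  rw [← add_tsub_cancel_of_le hx1, dEg_add, ← hn] at h4
  have h5 := mm_le S n
  have h6 : S.δ * S.ht x ≤ S.δ * (mm S n - 1) := Nat.mul_le_mul_left _ (by omega)
  have h7 : dEg S.dg (S.dv x - E) = dEg S.dg (S.dv x - E) := rfl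
  omega

theorem finite_deg (n : ℕ) : {E : Z →₀ ℕ | dEg S.dg E = n}.Finite := by
  classical
  have hlt := lt_mm S n
  have hfin := box_finite S 0 (mm S n) (by rw [dEg_zero]; omega)
  refine Set.Finite.subset (hfin.biUnion (t := fun x => {E | E ≤ S.dv x}) fun x _ => Set.finite_Iic _) ?_
  intro E hE
  obtain ⟨x, F, hx0, hx1, hx2, -⟩ := exists_elt S E
  rw [Set.mem_ofPred_eq] at hE
  rw [hE] at hx2
  refine Set.mem_biUnion (x := x) (Or.inr ⟨zero_le, hx2⟩) ?_
  rw [Set.mem_ofPred_eq, hx1]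
  exact le_self_add

theorem finite_deg_le (n : ℕ) : {E : Z →₀ ℕ | dEg S.dg E ≤ n}.Finite := by
  have : {E : Z →₀ ℕ | dEg S.dg E ≤ n} = ⋃ k ∈ Set.Iic n, {E : Z →₀ ℕ | dEg S.dg E = k} := by
    ext E; simp
  rw [this]
  exact (Set.finite_Iic n).biUnion fun k _ => finite_deg S k

theorem effCount : Pool.Agent.T9h5.GG.EffCount := by
  intro A Z _ _ S
  classical
  set B := S.c + S.c₀ + 1 with hB
  refine ⟨{F : Z →₀ ℕ | dEg S.dg F ≤ B}.ncard * S.q ^ (B + S.δ), fun n => ⟨finite_deg S n, ?_⟩⟩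
  have hlt := lt_mm S n
  have hle := mm_le S n
  have hfin := box_finite S 0 (mm S n) (by rw [dEg_zero]; omega)
  have hbox := S.box 0 (mm S n) (by rw [dEg_zero]; omega)
  rw [dEg_zero, zero_add] at hbox
  set X := {x : A | x = 0 ∨ (0 ≤ S.dv x ∧ S.ht x < mm S n)} with hX
  choose! x F hx0 hx1 hx2 hx3 using exists_elt S
  have hq := S.two_le_q
  have hmm : S.δ * mm S n ≤ n + (B + S.δ) := by
    have : S.δ * mm S n = S.δ * (mm S n - 1) + S.δ := by
      have h1 : 1 ≤ mm S n := Nat.le_add_left 1 _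
      obtain ⟨k, hk⟩ := Nat.exists_eq_add_of_le h1
      rw [hk, Nat.add_sub_cancel_left]; ring
    omega
  calc {E : Z →₀ ℕ | S.dE E = n}.ncard
      ≤ (X ×ˢ {F : Z →₀ ℕ | dEg S.dg F ≤ B}).ncard := by
        refine Set.ncard_le_ncard_of_injOn (fun E => (x E, F E)) ?_ ?_
          (hfin.prod (finite_deg_le S B))
        · intro E hE
          have hE' : dEg S.dg E = n := hE
          refine ⟨Or.inr ⟨zero_le, ?_⟩, hx3 E⟩
          have := hx2 E
          rwa [hE'] at this
        · intro E _ E' _ h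
          have h1 : x E = x E' := congrArg Prod.fst h
          have h2 : F E = F E' := congrArg Prod.snd h
          have h3 := hx1 E
          rw [h1, hx1 E', h2] at h3
          exact (add_right_cancel h3).symm
    _ = X.ncard * {F : Z →₀ ℕ | dEg S.dg F ≤ B}.ncard := Set.ncard_prod
    _ ≤ S.q ^ (n + (B + S.δ)) * {F : Z →₀ ℕ | dEg S.dg F ≤ B}.ncard := by
        refine Nat.mul_le_mul_right _ ?_
        calc X.ncard ≤ X.ncard * S.q ^ S.c := Nat.le_mul_of_pos_right _ (Nat.pow_pos (by omega))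
          _ = S.q ^ (S.δ * mm S n) := hbox
          _ ≤ _ := Nat.pow_le_pow_right (by omega) hmm
    _ = _ := by rw [pow_add]; ring

theorem units_torsion (u : A) (hu : u ≠ 0) (h : S.dv u = 0) : ∃ n, 0 < n ∧ u ^ n = 1 := by
  classical
  have hfin := box_finite S 0 (S.c₀ + 1) (by
    rw [dEg_zero, zero_add]
    calc S.c₀ ≤ 1 * (S.c₀ + 1) := by omega
      _ ≤ _ := Nat.mul_le_mul_right _ S.δ_pos)
  have hmap : ∀ i : ℕ, u ^ i ∈ {x : A | x = 0 ∨ (0 ≤ S.dv x ∧ S.ht x < S.c₀ + 1)} := by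
    intro i
    refine Or.inr ⟨zero_le, ?_⟩
    rw [ht_eq_zero S (u ^ i) (pow_ne_zero i hu) (by rw [dv_pow S u hu, h, smul_zero])]
    omega
  obtain ⟨i, j, hij, he⟩ := Set.Finite.exists_lt_map_eq_of_forall_mem (t := _) hmap hfin
  refine ⟨j - i, by omega, ?_⟩
  have h1 : u ^ j = u ^ i * u ^ (j - i) := by rw [← pow_add]; congr 1; omega
  rw [h1] at he
  have h2 : u ^ i * u ^ (j - i) = u ^ i * 1 := by rw [mul_one]; exact he.symm
  exact mul_left_cancel₀ (pow_ne_zero i hu) h2

theorem principal_power (z : Z) : ∃ (σ : A) (N : ℕ), 0 < N ∧ S.mon σ ∧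
    S.dv σ = Finsupp.single z N := by
  classical
  choose! x F hx0 hx1 hx2 hx3 using exists_elt S
  obtain ⟨i, j, hij, he⟩ := Set.Finite.exists_lt_map_eq_of_forall_mem
    (f := fun i : ℕ => F (Finsupp.single z i)) (t := {F : Z →₀ ℕ | dEg S.dg F ≤ S.c + S.c₀ + 1})
    (fun i => hx3 _) (finite_deg_le S _)
  have he' : F (Finsupp.single z i) = F (Finsupp.single z j) := he
  have h1 := hx1 (Finsupp.single z i)
  have h2 := hx1 (Finsupp.single z j)
  have h3 : S.dv (x (Finsupp.single z j)) = S.dv (x (Finsupp.single z i)) +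
      Finsupp.single z (j - i) := by
    rw [h1, h2, ← he', add_right_comm, ← Finsupp.single_add]
    congr 2
    omega
  obtain ⟨y, hy⟩ := S.dvd_of_le _ _ (hx0 (Finsupp.single z i)) (hx0 (Finsupp.single z j))
    (by rw [h3]; exact le_self_add)
  have hy0 : y ≠ 0 := by
    rintro rfl
    rw [mul_zero] at hy
    exact hx0 _ hy
  have h4 : S.dv y = Finsupp.single z (j - i) := by
    have := S.dv_mul _ _ (hx0 (Finsupp.single z i)) hy0
    rw [← hy, h3] at this
    exact (add_left_cancel this).symm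
  obtain ⟨N, hN, hmon⟩ := S.mon_pow
  refine ⟨y ^ N, N * (j - i), Nat.mul_pos hN (by omega), hmon y hy0, ?_⟩
  rw [dv_pow S y hy0, h4, Finsupp.smul_single, smul_eq_mul]

include S in
theorem nonempty_places : Nonempty Z := by
  obtain ⟨x, hx, hm⟩ := S.mon_ex (S.c₀ + 1) (by
    calc S.c₀ ≤ 1 * (S.c₀ + 1) := by omega
      _ ≤ _ := Nat.mul_le_mul_right _ S.δ_pos)
  have h0 := S.mon_ne x hx
  by_contra hne
  rw [not_nonempty_iff] at hne
  have h1 : S.dv x = 0 := by ext z; exact (hne.false z).elim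
  have h2 := ht_eq_zero S x h0 h1
  omega

include S in
theorem infinite_places : Infinite Z := by
  classical
  by_contra hfin
  rw [not_infinite_iff_finite] at hfin
  have : Fintype Z := Fintype.ofFinite Z
  choose σ N hN hmon hdv using principal_power S
  have hσ : ∀ z, σ z ≠ 0 := fun z => S.mon_ne _ (hmon z)
  set P := ∏ z, σ z with hP
  have hP0 : P ≠ 0 := Finset.prod_ne_zero_iff.mpr fun z _ => hσ z
  have hle : ∀ z, 0 < S.dv P z := by
    intro z
    have h1 : P = σ z * ∏ w ∈ univ.erase z, σ w := (Finset.mul_prod_erase univ σ (mem_univ z)).symm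
    rw [h1, S.dv_mul _ _ (hσ z) (Finset.prod_ne_zero_iff.mpr fun w _ => hσ w), hdv z]
    simp only [Finsupp.coe_add, Pi.add_apply, Finsupp.single_eq_same]
    have := hN z
    omega
  obtain ⟨z₀⟩ := nonempty_places S
  have hs : 1 + P ≠ 0 := by
    intro h
    have h1 : P = -1 := by rw [eq_neg_iff_add_eq_zero, add_comm]; exact h
    have h2 := hle z₀
    rw [h1, dv_neg_one] at h2
    simp at h2
  have hd : S.dv (1 + P) = 0 := by
    ext z
    by_contra hne
    have hpos : 0 < S.dv (1 + P) z := Nat.pos_of_ne_zero hne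
    have h1 := S.dv_add (1 + P) (-P) hs (neg_ne_zero.mpr hP0) (by
      rw [add_neg_cancel_right]; exact one_ne_zero) z
    rw [add_neg_cancel_right, dv_one, dv_neg S P hP0] at h1
    have h2 := hle z
    simp only [Finsupp.coe_zero, Pi.zero_apply] at h1
    omega
  have h1 := ht_eq_zero S _ hs hd
  have h2 := S.ht_add (1 + P) (-1) hs (neg_ne_zero.mpr one_ne_zero) (by
    rw [add_comm 1 P, add_neg_cancel_right]; exact hP0)
  rw [add_comm 1 P, add_neg_cancel_right, add_comm P 1, h1,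
    ht_eq_zero S (-1) (neg_ne_zero.mpr one_ne_zero) (dv_neg_one S)] at h2
  have h3 := S.dE_dv P hP0
  have h4 : S.ht P = 0 := by omega
  rw [h4, mul_zero] at h3
  have h5 : S.dv P = Finsupp.single z₀ (S.dv P z₀) + (S.dv P).erase z₀ := by
    rw [Finsupp.single_add_erase]
  rw [h5, dEg_add, dEg_single] at h3
  have h6 : 0 < S.dv P z₀ * S.dg z₀ := Nat.mul_pos (hle z₀) (S.dg_pos z₀)
  omega

theorem primes : Pool.Agent.T9h5.GG.Primes := by
  intro A Z _ _ S
  classical
  refine ⟨units_torsion S, principal_power S, infinite_places S, fun n => ?_⟩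
  have h := (finite_deg_le S n).preimage (f := fun z : Z => Finsupp.single z 1)
    (Finsupp.single_left_injective one_ne_zero).injOn
  refine h.subset ?_
  intro z hz
  rw [Set.mem_preimage, Set.mem_ofPred_eq, dEg_single, one_mul]
  exact hz

end Pool.Agent.T9h69.GG
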