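import Mathlib
import Pool.Agent.T9h5.GG.Cnt
import Pool.Agent.T9h69.GG.EffCount

/-!
Piece NonCop for helper5 (MP_c727bf_nt, GG): few pairs are not coprime; port of T9h73/GF/NonCop.lean
(helper73).

Author: helper69.
-/

set_option autoImplicit false
set_option linter.unusedSectionVars false

namespace Pool.Agent.T9h69.GG

open Finset
open Pool.Agent.T9h5.GG (dEg Ar fs)

theorem geo {q : ℝ} (hq : 2 ≤ q) (a b : ℕ) : ∑ n ∈ Ico a b, (1 / q) ^ n ≤ 2 * (1 / q) ^ a := by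
  have h0 : 0 ≤ 1 / q := by positivity
  have h1 : 1 / q ≤ 1 / 2 := by
    apply one_div_le_one_div_of_le <;> linarith
  refine (geom_sum_Ico_le_of_lt_one h0 (by linarith)).trans ?_
  rw [div_le_iff₀ (by linarith)]
  have : 0 ≤ (1 / q) ^ a := by positivity
  nlinarith

section

variable {A Z : Type} [CommRing A] [IsDomain A] (S : Ar A Z)

open Classical in
/-- the number of elements of `Cop M D` divisible by `E` -/
noncomputable def nd (M : A) (D : ℕ) (E : Z →₀ ℕ) : ℕ := ((S.Cop M D).filter (E ≤ S.dv ·)).card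

theorem nd_eq (M : A) (D : ℕ) (E : Z →₀ ℕ) :
    nd S M D E = {x ∈ (S.Cop M D : Set A) | E ≤ S.dv x}.ncard := by
  classical
  unfold nd
  rw [← Set.ncard_coe_finset]
  congr 1
  ext x
  simp

theorem single_le {z : Z} {F : Z →₀ ℕ} (h : F z ≠ 0) : Finsupp.single z 1 ≤ F := by
  classical
  intro y
  rw [Finsupp.single_apply]
  split_ifs with hy
  · subst hy; omega
  · exact Nat.zero_le _

open Classical in
theorem nonCop_bound (C : ℕ) (hC : ∀ n : ℕ, {E : Z →₀ ℕ | S.dE E = n}.Finite ∧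
      {E : Z →₀ ℕ | S.dE E = n}.ncard ≤ C * S.q ^ n) (M : A) (hM : M ≠ 0) (w : ℕ)
    (hw : ∀ z, S.dg z ≤ w → S.dv M z ≠ 0) (D₁ D₂ : ℕ)
    (h1 : S.δ * S.ht M + S.c₀ ≤ S.δ * D₁) (h2 : S.δ * S.ht M + S.c₀ ≤ S.δ * D₂) :
    (((S.Cop M D₁ ×ˢ S.Cop M D₂).filter (fun p => ¬ IsCoprime p.1 p.2)).card : ℝ) ≤
      ((S.Cop M D₁).card * (S.Cop M D₂).card : ℝ) *
        (C * (2 * (1 / (S.q : ℝ)) ^ (w + 1) + (S.q : ℝ) ^ (2 * (S.δ * S.ht M + S.c₀ + S.δ)) *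
          (2 * (1 / (S.q : ℝ)) ^ (S.δ * min D₁ D₂ - (S.δ * S.ht M + S.c₀) + 1)))) := by
  classical
  obtain ⟨q, hq⟩ : ∃ q : ℝ, q = (S.q : ℝ) := ⟨_, rfl⟩
  have hq2 : 2 ≤ q := by
    rw [hq]; exact_mod_cast S.two_le_q
  have hq0 : 0 < q := by linarith
  obtain ⟨μ, hμ⟩ : ∃ μ, μ = S.δ * S.ht M + S.c₀ := ⟨_, rfl⟩
  obtain ⟨D, hD⟩ : ∃ D, D = S.δ * min D₁ D₂ := ⟨_, rfl⟩
  have hD1 : D ≤ S.δ * D₁ := by rw [hD]; exact Nat.mul_le_mul_left _ (min_le_left _ _)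
  have hD2 : D ≤ S.δ * D₂ := by rw [hD]; exact Nat.mul_le_mul_left _ (min_le_right _ _)
  have hDor : D = S.δ * D₁ ∨ D = S.δ * D₂ := by
    rcases min_choice D₁ D₂ with h | h
    · left; rw [hD, h]
    · right; rw [hD, h]
  rw [← hq, ← hμ, ← hD]
  -- covering
  have hsub : (S.Cop M D₁ ×ˢ S.Cop M D₂).filter (fun p => ¬ IsCoprime p.1 p.2) ⊆
      (Ico (w + 1) (D + 1)).biUnion fun n => (S.Ecop M n).biUnion fun E =>
        ((S.Cop M D₁).filter (E ≤ S.dv ·)) ×ˢ ((S.Cop M D₂).filter (E ≤ S.dv ·)) := by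
    rintro ⟨x, y⟩ hxy
    rw [Finset.mem_filter, Finset.mem_product] at hxy
    obtain ⟨⟨hx, hy⟩, hne⟩ := hxy
    obtain ⟨x1, x2, x3⟩ := S.mem_Cop.1 hx
    obtain ⟨y1, y2, y3⟩ := S.mem_Cop.1 hy
    have hx0 := S.mon_ne _ x1
    have hy0 : y ≠ 0 := S.mon_ne _ y1
    have hex : ∃ z, S.dv x z ≠ 0 ∧ S.dv y z ≠ 0 := by
      by_contra hcon
      push Not at hcon
      apply hne
      rw [Pool.Agent.T9h5.GG.copIff A Z S x y hx0 hy0]
      intro z
      by_cases hz : S.dv x z = 0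
      · exact Or.inl hz
      · exact Or.inr (hcon z hz)
    obtain ⟨z, hz1, hz2⟩ := hex
    have hzM : S.dv M z = 0 := by
      rcases (Pool.Agent.T9h5.GG.copIff A Z S x M hx0 hM).1 x3 z with h | h
      · exact absurd h hz1
      · exact h
    have hlt : w < S.dg z := by
      by_contra hle
      exact hw z (not_lt.1 hle) hzM
    have e1 : Finsupp.single z 1 ≤ S.dv x := single_le hz1
    have e2 : Finsupp.single z 1 ≤ S.dv y := single_le hz2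
    have d0 : S.dE (Finsupp.single z 1) = S.dg z := by rw [S.dE_single, one_mul]
    have d1 := S.dE_mono e1
    have d2 := S.dE_mono e2
    rw [d0, S.dE_dv' hx0, x2] at d1
    rw [d0, S.dE_dv' hy0, y2] at d2
    have d3 : S.dg z ≤ D := by
      rcases hDor with h | h
      · rw [h]; exact d1
      · rw [h]; exact d2
    refine Finset.mem_biUnion.2 ⟨S.dg z, Finset.mem_Ico.2 ⟨by omega, by omega⟩,
      Finset.mem_biUnion.2 ⟨Finsupp.single z 1,
        (Pool.Agent.T9h5.GG.mem_Ecop S).2 ⟨d0, ?_⟩, ?_⟩⟩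
    · intro y
      by_cases hyz : y = z
      · subst hyz; exact Or.inr hzM
      · left; rw [Finsupp.single_apply, if_neg (fun h => hyz h.symm)]
    · exact Finset.mem_product.2 ⟨Finset.mem_filter.2 ⟨hx, e1⟩, Finset.mem_filter.2 ⟨hy, e2⟩⟩
  have hcard : (((S.Cop M D₁ ×ˢ S.Cop M D₂).filter (fun p => ¬ IsCoprime p.1 p.2)).card : ℝ) ≤
      ∑ n ∈ Ico (w + 1) (D + 1), ∑ E ∈ S.Ecop M n, (nd S M D₁ E : ℝ) * nd S M D₂ E := by
    have h3 : ((S.Cop M D₁ ×ˢ S.Cop M D₂).filter (fun p => ¬ IsCoprime p.1 p.2)).card ≤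
        ∑ n ∈ Ico (w + 1) (D + 1), ∑ E ∈ S.Ecop M n, nd S M D₁ E * nd S M D₂ E := by
      refine (Finset.card_le_card hsub).trans ?_
      refine Finset.card_biUnion_le.trans (Finset.sum_le_sum fun n _ => ?_)
      refine Finset.card_biUnion_le.trans (Finset.sum_le_sum fun E _ => ?_)
      rw [Finset.card_product]; rfl
    exact_mod_cast h3
  -- bound for one `E`
  obtain ⟨c1, hc1⟩ : ∃ c1 : ℝ, c1 = (S.Cop M D₁).card := ⟨_, rfl⟩
  obtain ⟨c2, hc2⟩ : ∃ c2 : ℝ, c2 = (S.Cop M D₂).card := ⟨_, rfl⟩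
  have c10 : 0 ≤ c1 := by rw [hc1]; positivity
  have c20 : 0 ≤ c2 := by rw [hc2]; positivity
  have one : ∀ (Di : ℕ), μ ≤ S.δ * Di → D ≤ S.δ * Di → ∀ n, ∀ E ∈ S.Ecop M n, n ≤ D →
      (nd S M Di E : ℝ) ≤ (if D < n + μ then q ^ (μ + S.δ) else 1) * (S.Cop M Di).card *
        (1 / q) ^ n := by
    intro Di hi hDi n E hE hn
    obtain ⟨p3, p5⟩ := (Pool.Agent.T9h5.GG.mem_Ecop S).1 hE
    obtain ⟨e1, e2⟩ := Pool.Agent.T9h5.GG.divCount A Z S M hM E Di p5 (hμ ▸ hi)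
    rw [← nd_eq, p3] at e1 e2
    have hqn : (1 / q) ^ n * q ^ n = 1 := by
      rw [← mul_pow, one_div_mul_cancel hq0.ne', one_pow]
    have hqn' : 0 < q ^ n := by positivity
    have key : ∀ A : ℝ, (nd S M Di E : ℝ) * q ^ n ≤ A → (nd S M Di E : ℝ) ≤ A * (1 / q) ^ n := by
      intro A hA
      calc (nd S M Di E : ℝ) = (nd S M Di E : ℝ) * q ^ n * (1 / q) ^ n := by
            rw [mul_assoc, mul_comm (q ^ n), hqn, mul_one]
        _ ≤ A * (1 / q) ^ n := mul_le_mul_of_nonneg_right hA (by positivity)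
    apply key
    split_ifs with hlt
    · rw [hq, hμ]; exact_mod_cast e2
    · rw [one_mul, hq]
      have := e1 (by omega)
      exact_mod_cast this.le
  have hn : ∀ n ∈ Ico (w + 1) (D + 1), ∑ E ∈ S.Ecop M n, (nd S M D₁ E : ℝ) * nd S M D₂ E ≤
      c1 * c2 * (C * ((1 / q) ^ n + if D < n + μ then q ^ (2 * (μ + S.δ)) * (1 / q) ^ n else 0)) := by
    intro n hn
    rw [Finset.mem_Ico] at hn
    have hcn : ((S.Ecop M n).card : ℝ) ≤ C * q ^ n := by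
      have h4 : (S.Ecop M n).card ≤ C * S.q ^ n := by
        refine le_trans ?_ (hC n).2
        rw [← Set.ncard_coe_finset]
        refine Set.ncard_le_ncard ?_ (hC n).1
        intro E hE
        exact ((Pool.Agent.T9h5.GG.mem_Ecop S).1 (Finset.mem_coe.1 hE)).1
      rw [hq]; exact_mod_cast h4
    have hqn : (1 / q) ^ n * q ^ n = 1 := by
      rw [← mul_pow, one_div_mul_cancel hq0.ne', one_pow]
    obtain ⟨γ, hγ⟩ : ∃ γ : ℝ, γ = if D < n + μ then q ^ (μ + S.δ) else 1 := ⟨_, rfl⟩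
    have hγ0 : 0 ≤ γ := by rw [hγ]; split_ifs <;> positivity
    have hγ2 : γ * γ * (1 / q) ^ n ≤
        (1 / q) ^ n + if D < n + μ then q ^ (2 * (μ + S.δ)) * (1 / q) ^ n else 0 := by
      rw [hγ]
      split_ifs
      · rw [← pow_add, ← two_mul]
        have : 0 ≤ (1 / q) ^ n := by positivity
        linarith
      · simp
    calc ∑ E ∈ S.Ecop M n, (nd S M D₁ E : ℝ) * nd S M D₂ E
        ≤ ∑ E ∈ S.Ecop M n, (γ * c1 * (1 / q) ^ n) * (γ * c2 * (1 / q) ^ n) := by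
          refine Finset.sum_le_sum fun E hE => ?_
          refine mul_le_mul ?_ ?_ (Nat.cast_nonneg _) (by positivity)
          · rw [hγ, hc1]
            exact one D₁ (hμ ▸ h1) hD1 n E hE (by omega)
          · rw [hγ, hc2]
            exact one D₂ (hμ ▸ h2) hD2 n E hE (by omega)
      _ = ((S.Ecop M n).card : ℝ) * ((γ * c1 * (1 / q) ^ n) * (γ * c2 * (1 / q) ^ n)) := by
          rw [Finset.sum_const, nsmul_eq_mul]
      _ ≤ (C * q ^ n) * ((γ * c1 * (1 / q) ^ n) * (γ * c2 * (1 / q) ^ n)) :=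
          mul_le_mul_of_nonneg_right hcn (by positivity)
      _ = c1 * c2 * (C * (γ * γ * (1 / q) ^ n)) * ((1 / q) ^ n * q ^ n) := by ring
      _ = c1 * c2 * (C * (γ * γ * (1 / q) ^ n)) := by rw [hqn, mul_one]
      _ ≤ _ := mul_le_mul_of_nonneg_left (mul_le_mul_of_nonneg_left hγ2 (Nat.cast_nonneg _))
          (by positivity)
  refine hcard.trans ((Finset.sum_le_sum hn).trans ?_)
  rw [← Finset.mul_sum, ← hc1, ← hc2]
  refine mul_le_mul_of_nonneg_left ?_ (by positivity)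
  rw [← Finset.mul_sum]
  refine mul_le_mul_of_nonneg_left ?_ (Nat.cast_nonneg _)
  rw [Finset.sum_add_distrib]
  refine add_le_add (geo hq2 _ _) ?_
  rw [← Finset.sum_filter, ← Finset.mul_sum]
  refine mul_le_mul_of_nonneg_left ?_ (by positivity)
  refine (Finset.sum_le_sum_of_subset_of_nonneg (t := Ico (D - μ + 1) (D + 1)) ?_
    fun _ _ _ => by positivity).trans (geo hq2 _ _)
  intro n hn
  rw [Finset.mem_filter, Finset.mem_Ico] at hn
  rw [Finset.mem_Ico]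
  omega

end

/-- PIECE `NonCop` -/
theorem nonCop : Pool.Agent.T9h5.GG.NonCop := by
  intro A Z _ _ S ε hε
  obtain ⟨C, hC⟩ := effCount A Z S
  obtain ⟨q, hq⟩ : ∃ q : ℝ, q = (S.q : ℝ) := ⟨_, rfl⟩
  have hq2 : 2 ≤ q := by
    rw [hq]; exact_mod_cast S.two_le_q
  have hq0 : 0 < q := by linarith
  have h0 : 0 ≤ 1 / q := by positivity
  have h1 : 1 / q < 1 := by
    rw [div_lt_one hq0]; linarith
  have hex : ∀ δ : ℝ, 0 < δ → ∃ n₀ : ℕ, ∀ n, n₀ ≤ n → (1 / q) ^ n ≤ δ := by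
    intro δ hδ
    obtain ⟨n₀, hn₀⟩ := exists_pow_lt_of_lt_one hδ h1
    exact ⟨n₀, fun n hn => (pow_le_pow_of_le_one h0 h1.le hn).trans hn₀.le⟩
  obtain ⟨w₀, hw₀⟩ := hex (ε / (4 * (C + 1))) (by positivity)
  refine ⟨w₀, fun w hw M hM hπ => ?_⟩
  obtain ⟨μ, hμ⟩ : ∃ μ, μ = S.δ * S.ht M + S.c₀ := ⟨_, rfl⟩
  obtain ⟨n₁, hn₁⟩ := hex (ε / (4 * (C + 1) * q ^ (2 * (μ + S.δ)))) (by positivity)
  refine ⟨n₁ + μ, fun D₁ D₂ hD₁ hD₂ => ?_⟩
  have hδ : ∀ x, x ≤ S.δ * x := fun x => Nat.le_mul_of_pos_left x S.δ_pos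
  have k1 : μ ≤ S.δ * D₁ := le_trans (by omega) (hδ D₁)
  have k2 : μ ≤ S.δ * D₂ := le_trans (by omega) (hδ D₂)
  refine (nonCop_bound S C hC M hM w hπ D₁ D₂ (hμ ▸ k1) (hμ ▸ k2)).trans ?_
  rw [← hq, ← hμ]
  have e1 := hw₀ (w + 1) (by omega)
  have hmin : n₁ ≤ S.δ * min D₁ D₂ - μ + 1 := by
    have h3 : n₁ + μ ≤ min D₁ D₂ := le_min hD₁ hD₂
    have h4 := hδ (min D₁ D₂)
    omega
  have e2 := hn₁ _ hmin
  have hC1 : (0 : ℝ) < C + 1 := by positivity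
  have e3 : q ^ (2 * (μ + S.δ)) * (1 / q) ^ (S.δ * min D₁ D₂ - μ + 1) ≤ ε / (4 * (C + 1)) := by
    have h5 : 0 < q ^ (2 * (μ + S.δ)) := by positivity
    calc q ^ (2 * (μ + S.δ)) * (1 / q) ^ (S.δ * min D₁ D₂ - μ + 1)
        ≤ q ^ (2 * (μ + S.δ)) * (ε / (4 * (C + 1) * q ^ (2 * (μ + S.δ)))) :=
          mul_le_mul_of_nonneg_left e2 h5.le
      _ = ε / (4 * (C + 1)) := by field_simp
  have hT : C * (2 * (1 / q) ^ (w + 1) + q ^ (2 * (μ + S.δ)) *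
      (2 * (1 / q) ^ (S.δ * min D₁ D₂ - μ + 1))) ≤ ε := by
    have e4 : 2 * (1 / q) ^ (w + 1) + q ^ (2 * (μ + S.δ)) *
        (2 * (1 / q) ^ (S.δ * min D₁ D₂ - μ + 1)) ≤ ε / (C + 1) := by
      have e5 : ε / (C + 1) = 2 * (ε / (4 * (C + 1))) + 2 * (ε / (4 * (C + 1))) := by
        field_simp; ring
      rw [e5]; nlinarith
    calc C * (2 * (1 / q) ^ (w + 1) + q ^ (2 * (μ + S.δ)) *
          (2 * (1 / q) ^ (S.δ * min D₁ D₂ - μ + 1))) ≤ C * (ε / (C + 1)) :=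
          mul_le_mul_of_nonneg_left e4 (Nat.cast_nonneg _)
      _ ≤ (C + 1) * (ε / (C + 1)) := mul_le_mul_of_nonneg_right (by linarith) (by positivity)
      _ = ε := by field_simp
  refine (mul_le_mul_of_nonneg_left hT (by positivity)).trans (le_of_eq ?_)
  ring

end Pool.Agent.T9h69.GG
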